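import Mathlib

/-!
# Packing families of progressions: basic combinatorics
-/

open Finset

namespace H70Pack

/-- The progressions `{d, 2d, …}` (terms `≤ n`), `d ∈ D`, can be translated by nonnegative shifts
so that they are pairwise disjoint and every window `(s, s+n]` lies in `[1, len]`. -/
def PackD (n : ℕ) (D : Finset ℕ) (len : ℕ) : Prop :=
  ∃ s : ℕ → ℕ, (∀ d ∈ D, s d + n ≤ len) ∧
    ∀ d ∈ D, ∀ e ∈ D, d ≠ e → ∀ u v : ℕ, 1 ≤ u → 1 ≤ v → u * d ≤ n → v * e ≤ n →
      s d + u * d ≠ s e + v * e

lemma PackD.mono {n : ℕ} {D D' : Finset ℕ} {l l' : ℕ} (h : PackD n D l) (hD : D' ⊆ D)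
    (hl : l ≤ l') : PackD n D' l' := by
  obtain ⟨s, h1, h2⟩ := h
  exact ⟨s, fun d hd => (h1 d (hD hd)).trans hl, fun d hd e he => h2 d (hD hd) e (hD he)⟩

lemma PackD.empty (n : ℕ) : PackD n ∅ 0 := ⟨fun _ => 0, by simp, by simp⟩

/-- Subadditivity. Differences in the families must be positive. -/
lemma PackD.union {n : ℕ} {D E : Finset ℕ} {l k : ℕ} (hE : ∀ e ∈ E, 0 < e)
    (h : PackD n D l) (h' : PackD n E k) : PackD n (D ∪ E) (l + k) := by
  classical
  obtain ⟨s, h1, h2⟩ := h
  obtain ⟨t, g1, g2⟩ := h'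
  have key : ∀ d ∈ D, ∀ e ∈ E, ∀ u v : ℕ, 1 ≤ u → 1 ≤ v → u * d ≤ n → v * e ≤ n →
      s d + u * d < l + t e + v * e := by
    intro d hd e he u v _ hv hu' _
    have a1 := h1 d hd
    have a2 : 0 < v * e := Nat.mul_pos hv (hE e he)
    omega
  refine ⟨fun d => if d ∈ D then s d else l + t d, ?_, ?_⟩
  · intro d hd
    by_cases hdD : d ∈ D
    · simp only [hdD, if_true]
      have := h1 d hdD
      omega
    · simp only [hdD, if_false]
      have hdE : d ∈ E := by
        rcases mem_union.mp hd with h | h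
        · exact absurd h hdD
        · exact h
      have := g1 d hdE
      omega
  · intro d hd e he hne u v hu hv hu' hv'
    by_cases hdD : d ∈ D <;> by_cases heD : e ∈ D
    · simp only [hdD, heD, if_true]
      exact h2 d hdD e heD hne u v hu hv hu' hv'
    · simp only [hdD, heD, if_true, if_false]
      have heE : e ∈ E := (mem_union.mp he).resolve_left heD
      exact (key d hdD e heE u v hu hv hu' hv').ne
    · simp only [hdD, heD, if_true, if_false]
      have hdE : d ∈ E := (mem_union.mp hd).resolve_left hdD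
      exact (key e heD d hdE v u hv hu hv' hu').ne'
    · simp only [hdD, heD, if_false]
      have heE : e ∈ E := (mem_union.mp he).resolve_left heD
      have hdE : d ∈ E := (mem_union.mp hd).resolve_left hdD
      have := g2 d hdE e heE hne u v hu hv hu' hv'
      omega

lemma PackD.biUnion {n : ℕ} {ι : Type*} [DecidableEq ι] (I : Finset ι) (D : ι → Finset ℕ) (l : ι → ℕ)
    (hpos : ∀ i ∈ I, ∀ d ∈ D i, 0 < d) (h : ∀ i ∈ I, PackD n (D i) (l i)) :
    PackD n (I.biUnion D) (∑ i ∈ I, l i) := by
  induction I using Finset.induction_on with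
  | empty => simpa using PackD.empty n
  | insert a I ha ih =>
    rw [biUnion_insert, sum_insert ha]
    refine PackD.union ?_ (h a (mem_insert_self _ _)) (ih ?_ ?_)
    · intro e he
      obtain ⟨i, hi, hie⟩ := mem_biUnion.mp he
      exact hpos i (mem_insert_of_mem hi) e hie
    · exact fun i hi => hpos i (mem_insert_of_mem hi)
    · exact fun i hi => h i (mem_insert_of_mem hi)

/-- Greedy step: one more progression fits if there is enough room. -/
lemma PackD.insert_greedy {n : ℕ} {D : Finset ℕ} {M d : ℕ} (hd : 0 < d)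
    (hD : ∀ e ∈ D, 0 < e) (h : PackD n D M)
    (hM : n + (∑ e ∈ D, n / e) * (n / d) < M) : PackD n (insert d D) M := by
  classical
  obtain ⟨s, h1, h2⟩ := h
  -- occupied points
  set O : Finset ℕ := D.biUnion (fun e => (Icc 1 (n / e)).image (fun v => s e + v * e)) with hO
  have hOcard : O.card ≤ ∑ e ∈ D, n / e := by
    refine card_biUnion_le.trans (sum_le_sum fun e _ => ?_)
    refine card_image_le.trans ?_
    simp
  -- forbidden shifts
  set F : Finset ℕ := (O ×ˢ (Icc 1 (n / d))).image (fun z => z.1 - z.2 * d) with hF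
  have hFcard : F.card ≤ (∑ e ∈ D, n / e) * (n / d) := by
    refine card_image_le.trans ?_
    rw [card_product]
    refine Nat.mul_le_mul hOcard ?_
    simp
  obtain ⟨t, htR, htF⟩ : ∃ t ∈ range (M - n), t ∉ F := by
    by_contra hcon
    push Not at hcon
    have : (range (M - n)).card ≤ F.card := card_le_card fun x hx => hcon x hx
    rw [card_range] at this
    omega
  have htM : t + n ≤ M := by
    have := mem_range.mp htR
    omega
  have key : ∀ e ∈ D, ∀ u v : ℕ, 1 ≤ u → 1 ≤ v → u * d ≤ n → v * e ≤ n → t + u * d ≠ s e + v * e := by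
    intro e he u v hu hv hu' hv' heq
    apply htF
    rw [hF, mem_image]
    refine ⟨(s e + v * e, u), ?_, ?_⟩
    · rw [mem_product]
      constructor
      · rw [hO, mem_biUnion]
        exact ⟨e, he, mem_image.mpr ⟨v, mem_Icc.mpr ⟨hv, (Nat.le_div_iff_mul_le (hD e he)).mpr hv'⟩, rfl⟩⟩
      · exact mem_Icc.mpr ⟨hu, (Nat.le_div_iff_mul_le hd).mpr hu'⟩
    · simp only
      omega
  refine ⟨fun x => if x = d then t else s x, ?_, ?_⟩
  · intro x hx
    by_cases hxd : x = d
    · simp only [hxd, if_true]; exact htM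
    · simp only [hxd, if_false]
      exact h1 x ((mem_insert.mp hx).resolve_left hxd)
  · intro x hx y hy hne u v hu hv hu' hv'
    by_cases hxd : x = d <;> by_cases hyd : y = d
    · exact absurd (hxd.trans hyd.symm) hne
    · simp only [hxd, hyd, if_true, if_false]
      rw [hxd] at hu'
      exact key y ((mem_insert.mp hy).resolve_left hyd) u v hu hv hu' hv'
    · simp only [hxd, hyd, if_true, if_false]
      rw [hyd] at hv'
      exact (key x ((mem_insert.mp hx).resolve_left hxd) v u hv hu hv' hu').symm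
    · simp only [hxd, hyd, if_false]
      exact h2 x ((mem_insert.mp hx).resolve_left hxd) y ((mem_insert.mp hy).resolve_left hyd) hne
        u v hu hv hu' hv'

/-- Greedy packing of all large differences. -/
lemma PackD.greedy {n D0 M : ℕ} (hD0 : 0 < D0) (hle : D0 ≤ n) (h : PackD n (Icc 1 D0) M)
    (hM : n + (∑ e ∈ Icc 1 n, n / e) * (n / D0) < M) : PackD n (Icc 1 n) M := by
  have : ∀ k, D0 ≤ k → k ≤ n → PackD n (Icc 1 k) M := by
    intro k hk
    induction k, hk using Nat.le_induction with
    | base => exact fun _ => h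
    | succ k hk ih =>
      intro hkn
      have hins : Icc 1 (k + 1) = insert (k + 1) (Icc 1 k) := by
        ext x; simp only [mem_Icc, mem_insert]; omega
      rw [hins]
      refine PackD.insert_greedy (by omega) (fun e he => (mem_Icc.mp he).1)
        (ih (by omega)) (lt_of_le_of_lt ?_ hM)
      refine Nat.add_le_add_left (Nat.mul_le_mul ?_ ?_) n
      · exact sum_le_sum_of_subset (Icc_subset_Icc_right (by omega))
      · exact Nat.div_le_div_left (by omega) hD0
  exact this n hle le_rfl

/-- Large primes: for fixed `k`, the differences `k p` with `p > √n` prime are packed with no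
shift. -/
lemma packD_large {n r : ℕ} (hr : n < (r + 1) * (r + 1)) (k : ℕ) (D : Finset ℕ)
    (hD : ∀ d ∈ D, ∃ p, p.Prime ∧ r < p ∧ d = k * p) : PackD n D n := by
  refine ⟨fun _ => 0, fun _ _ => by simp, ?_⟩
  intro d hd e he hne u v hu hv hu' hv' heq
  obtain ⟨p, hp, hrp, rfl⟩ := hD d hd
  obtain ⟨q, hq, hrq, rfl⟩ := hD e he
  simp only [zero_add] at heq
  have hk : 0 < k := by
    rcases Nat.eq_zero_or_pos k with rfl | h
    · simp at hne
    · exact h
  have hpq : p ≠ q := fun h => hne (by rw [h])
  have h1 : u * p = v * q := by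
    have : k * (u * p) = k * (v * q) := by linarith [heq, mul_left_comm k u p, mul_left_comm k v q]
    exact Nat.eq_of_mul_eq_mul_left hk this
  have h2 : q ∣ u := by
    have : q ∣ u * p := h1 ▸ Dvd.intro_left v rfl
    rcases (Nat.Prime.dvd_mul hq).mp this with h | h
    · exact h
    · exact absurd ((Nat.prime_dvd_prime_iff_eq hq hp).mp h).symm hpq
  have h3 : q ≤ u := Nat.le_of_dvd (by omega) h2
  have h4 : (r + 1) * (r + 1) ≤ u * (k * p) := by
    calc (r + 1) * (r + 1) ≤ q * p := Nat.mul_le_mul hrq hrp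
      _ ≤ u * (k * p) := Nat.mul_le_mul h3 (Nat.le_mul_of_pos_left p hk)
  omega

end H70Pack
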