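import Mathlib
import Pool.Agent.Lib_helper70.Pack.Basic

/-!
# Largest prime factor and the mixed radix shifts
-/

open Finset

namespace H70Pack

/-- Largest prime factor (`0` for `d ≤ 1`). -/
def gpf (d : ℕ) : ℕ := d.primeFactors.sup id

lemma gpf_prime {d : ℕ} (hd : 2 ≤ d) : (gpf d).Prime := by
  have hne : d.primeFactors.Nonempty := Nat.nonempty_primeFactors.mpr (by omega)
  obtain ⟨p, hp, hpe⟩ := Finset.exists_mem_eq_sup _ hne id
  unfold gpf
  rw [hpe]
  exact (Nat.mem_primeFactors.mp hp).1

lemma gpf_dvd {d : ℕ} (hd : 2 ≤ d) : gpf d ∣ d := by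
  have hne : d.primeFactors.Nonempty := Nat.nonempty_primeFactors.mpr (by omega)
  obtain ⟨p, hp, hpe⟩ := Finset.exists_mem_eq_sup _ hne id
  unfold gpf
  rw [hpe]
  exact (Nat.mem_primeFactors.mp hp).2.1

lemma le_gpf {d q : ℕ} (hd : d ≠ 0) (hq : q.Prime) (hqd : q ∣ d) : q ≤ gpf d := by
  unfold gpf
  exact Finset.le_sup (f := id) (Nat.mem_primeFactors.mpr ⟨hq, hqd, hd⟩)

lemma gpf_one : gpf 1 = 0 := by simp [gpf]

lemma gpf_zero : gpf 0 = 0 := by simp [gpf]

lemma gpf_le {d : ℕ} (hd : 2 ≤ d) : gpf d ≤ d := Nat.le_of_dvd (by omega) (gpf_dvd hd)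

lemma gpf_mono_dvd {d e : ℕ} (hd : d ≠ 0) (h : e ∣ d) : gpf e ≤ gpf d := by
  rcases lt_or_ge e 2 with he | he
  · have : gpf e = 0 := by
      interval_cases e
      · exact gpf_zero
      · exact gpf_one
    omega
  · exact le_gpf hd (gpf_prime he) ((gpf_dvd he).trans h)

/-- The mixed radix shift. -/
def sg (d : ℕ) : ℕ :=
  if h : 2 ≤ d then
    (gpf (d / gpf d) - 1) + gpf d * sg (d / gpf d)
  else 0
termination_by d
decreasing_by
  exact Nat.div_lt_self (by omega) (gpf_prime h).one_lt

lemma sg_small {d : ℕ} (h : ¬ 2 ≤ d) : sg d = 0 := by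
  rw [sg, dif_neg h]

lemma sg_big {d : ℕ} (h : 2 ≤ d) :
    sg d = (gpf (d / gpf d) - 1) + gpf d * sg (d / gpf d) := by
  rw [sg, dif_pos h]

lemma sg_lt {d : ℕ} (hd : 0 < d) : sg d < d := by
  induction d using Nat.strong_induction_on with
  | _ d ih =>
    by_cases h : 2 ≤ d
    · rw [sg_big h]
      have hp := gpf_prime h
      have hdvd := gpf_dvd h
      have hdiv : d / gpf d < d := Nat.div_lt_self (by omega) hp.one_lt
      have hpos : 0 < d / gpf d := Nat.div_pos (Nat.le_of_dvd (by omega) hdvd) hp.pos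
      have hih := ih (d / gpf d) hdiv hpos
      have hle : gpf (d / gpf d) ≤ gpf d := gpf_mono_dvd (by omega) (Nat.div_dvd_of_dvd hdvd)
      have hmul : gpf d * (d / gpf d) = d := Nat.mul_div_cancel' hdvd
      have h1 : gpf d * (sg (d / gpf d) + 1) ≤ gpf d * (d / gpf d) := Nat.mul_le_mul_left _ hih
      have h2 := hp.pos
      rw [hmul, mul_add, mul_one] at h1
      omega
    · rw [sg_small h]; exact hd

/-- Key property of the mixed radix shift. -/
lemma sg_sep {d e : ℕ} (hd : 0 < d) (he : 0 < e) (hne : d ≠ e) (hg : gpf d = gpf e) :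
    ¬ (sg d ≡ sg e [MOD Nat.gcd d e]) := by
  induction d using Nat.strong_induction_on generalizing e with
  | _ d ih =>
    by_cases h : 2 ≤ d
    · have hp := gpf_prime h
      have h' : 2 ≤ e := by
        by_contra hcon
        have : e = 1 := by omega
        rw [this, gpf_one] at hg
        exact hp.ne_zero hg
      have hdvd := gpf_dvd h
      have hdvd' : gpf d ∣ e := hg ▸ gpf_dvd h'
      set p := gpf d with hpdef
      obtain ⟨a, ha⟩ := hdvd
      obtain ⟨b, hb⟩ := hdvd'
      have hda : d / p = a := by rw [ha]; exact Nat.mul_div_cancel_left a hp.pos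
      have heb : e / p = b := by rw [hb]; exact Nat.mul_div_cancel_left b hp.pos
      have hapos : 0 < a := by
        rcases Nat.eq_zero_or_pos a with rfl | h0
        · simp at ha; omega
        · exact h0
      have hbpos : 0 < b := by
        rcases Nat.eq_zero_or_pos b with rfl | h0
        · simp at hb; omega
        · exact h0
      have hsd : sg d = (gpf a - 1) + p * sg a := by rw [sg_big h, ← hpdef, hda]
      have hse : sg e = (gpf b - 1) + p * sg b := by rw [sg_big h', ← hg, heb]
      have hga : gpf a ≤ p := gpf_mono_dvd (by omega) ⟨p, by rw [ha, mul_comm]⟩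
      have hgb : gpf b ≤ p := by
        rw [hg]; exact gpf_mono_dvd (by omega) ⟨p, by rw [hb, mul_comm]⟩
      have hgcd : Nat.gcd d e = p * Nat.gcd a b := by rw [ha, hb, Nat.gcd_mul_left]
      have hab : a ≠ b := fun hh => hne (by rw [ha, hb, hh])
      intro hmod
      rw [hsd, hse, hgcd] at hmod
      -- reduce mod p
      have hmp : (gpf a - 1) + p * sg a ≡ (gpf b - 1) + p * sg b [MOD p] :=
        hmod.of_dvd (Dvd.intro _ rfl)
      have hmp2 : gpf a - 1 ≡ gpf b - 1 [MOD p] := by
        unfold Nat.ModEq at hmp ⊢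
        simpa [Nat.add_mul_mod_self_left] using hmp
      have hpp := hp.pos
      have heq : gpf a - 1 = gpf b - 1 := by
        have e1 : gpf a - 1 < p := by omega
        have e2 : gpf b - 1 < p := by omega
        exact Nat.ModEq.eq_of_lt_of_lt hmp2 e1 e2
      -- hence gpf a = gpf b
      have hgab : gpf a = gpf b := by
        have f : ∀ x : ℕ, gpf x = 0 ∨ 2 ≤ gpf x := by
          intro x
          by_cases hx : 2 ≤ x
          · exact Or.inr (gpf_prime hx).two_le
          · left
            interval_cases x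
            · exact gpf_zero
            · exact gpf_one
        rcases f a with h1 | h1 <;> rcases f b with h2 | h2 <;> omega
      have hlt : a < d := by
        rw [ha]; exact lt_mul_of_one_lt_left hapos hp.one_lt
      refine ih a hlt hapos hbpos hab hgab ?_
      rw [heq] at hmod
      have h3 : p * sg a ≡ p * sg b [MOD p * Nat.gcd a b] := Nat.ModEq.add_left_cancel' _ hmod
      exact Nat.ModEq.mul_left_cancel' hp.ne_zero h3
    · -- d = 1
      have hd1 : d = 1 := by omega
      rw [hd1, gpf_one] at hg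
      by_cases h' : 2 ≤ e
      · exact absurd hg.symm (gpf_prime h').ne_zero
      · omega

/-- All differences `≤ D0` with the same largest prime factor are packed in one window. -/
lemma packD_gpf {n D0 p : ℕ} : PackD n ((Icc 1 D0).filter (fun d => gpf d = p)) (D0 + n) := by
  refine ⟨sg, ?_, ?_⟩
  · intro d hd
    obtain ⟨h1, _⟩ := mem_filter.mp hd
    have := sg_lt (mem_Icc.mp h1).1
    have := (mem_Icc.mp h1).2
    omega
  · intro d hd e he hne u v _ _ _ _ heq
    obtain ⟨h1, h2⟩ := mem_filter.mp hd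
    obtain ⟨h3, h4⟩ := mem_filter.mp he
    refine sg_sep (mem_Icc.mp h1).1 (mem_Icc.mp h3).1 hne (h2.trans h4.symm) ?_
    have a1 : sg d + u * d ≡ sg d [MOD Nat.gcd d e] := by
      have : u * d ≡ 0 [MOD Nat.gcd d e] :=
        (Nat.modEq_zero_iff_dvd).mpr ((Nat.gcd_dvd_left d e).mul_left u)
      simpa using Nat.ModEq.add_left (sg d) this
    have a2 : sg e + v * e ≡ sg e [MOD Nat.gcd d e] := by
      have : v * e ≡ 0 [MOD Nat.gcd d e] :=
        (Nat.modEq_zero_iff_dvd).mpr ((Nat.gcd_dvd_right d e).mul_left v)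
      simpa using Nat.ModEq.add_left (sg e) this
    rw [heq] at a1
    exact a1.symm.trans a2

end H70Pack
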