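import Mathlib
import Pool.Agent.Lib_helper70.Pack.Radix

/-!
# The chain of overlapping zones
-/

open Finset

namespace H70Pack

/-- Start of zone `i`. -/
def zs (p m : ℕ → ℕ) (w a i : ℕ) : ℕ := (∑ l ∈ Ico a i, m l * p l) + w * (p i - p a)

section
variable {p m Q : ℕ → ℕ} {n w a b J : ℕ}

lemma zs_diff (hmono : StrictMono p) {i j : ℕ} (hai : a ≤ i) (hij : i ≤ j) :
    zs p m w a j = zs p m w a i + (∑ l ∈ Ico i j, m l * p l) + w * (p j - p i) := by
  unfold zs
  rw [← sum_Ico_consecutive _ hai hij]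
  have h1 : p a ≤ p i := hmono.monotone hai
  have h2 : p i ≤ p j := hmono.monotone hij
  have h3 : p j - p a = (p i - p a) + (p j - p i) := by omega
  rw [h3, mul_add]
  ring

/-- The key algebraic fact: no collision between overlapping zones. -/
lemma no_collision_near (hp : ∀ i, (p i).Prime) (hmono : StrictMono p) {i j : ℕ}
    (hai : a ≤ i) (hij : i < j)
    (hm : ∀ l, i < l → l < j → (p j - p i) ∣ m l)
    (hQi : (p j - p i) ∣ Q i) (hQj : (p j - p i) ∣ Q j)
    (hbig : n + 2 * w * p i < p i * (p i + m i))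
    {k k' U V : ℕ} (hk : k * Q i ≤ w) (hk' : k' * Q j ≤ w) (hU : U * p i ≤ n) (hV : 1 ≤ V) :
    zs p m w a i + k * Q i + U * p i ≠ zs p m w a j + k' * Q j + V * p j := by
  intro heq
  rw [zs_diff hmono hai hij.le] at heq
  have hlt : p i < p j := hmono hij
  set H := p j - p i with hH
  have hHpos : 0 < H := by omega
  have hpj : p j = p i + H := by omega
  -- split the sum
  obtain ⟨Z, hZ, hZle⟩ : ∃ Z, ∑ l ∈ Ico i j, m l * p l = p i * (∑ l ∈ Ico i j, m l) + H * Z ∧
      Z + m i ≤ ∑ l ∈ Ico i j, m l := by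
    refine ⟨∑ l ∈ Ico (i + 1) j, (m l / H) * (p l - p i), ?_, ?_⟩
    · rw [mul_sum, mul_sum, sum_eq_sum_Ico_succ_bot hij, sum_eq_sum_Ico_succ_bot hij]
      have : ∑ l ∈ Ico (i + 1) j, m l * p l
          = ∑ l ∈ Ico (i + 1) j, p i * m l + ∑ l ∈ Ico (i + 1) j, H * ((m l / H) * (p l - p i)) := by
        rw [← sum_add_distrib]
        refine sum_congr rfl fun l hl => ?_
        obtain ⟨hl1, hl2⟩ := mem_Ico.mp hl
        have hdvd := hm l (by omega) hl2
        have h1 : H * (m l / H) = m l := Nat.mul_div_cancel' hdvd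
        have h2 : p i ≤ p l := hmono.monotone (by omega)
        rw [← mul_assoc, h1]
        obtain ⟨c, hc⟩ := Nat.exists_eq_add_of_le h2
        rw [hc]
        simp only [Nat.add_sub_cancel_left]
        ring
      rw [this]
      ring
    · rw [sum_eq_sum_Ico_succ_bot hij, add_comm]
      refine Nat.add_le_add_left (sum_le_sum fun l hl => ?_) _
      obtain ⟨hl1, hl2⟩ := mem_Ico.mp hl
      have hdvd := hm l (by omega) hl2
      have h1 : (m l / H) * H = m l := Nat.div_mul_cancel hdvd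
      have h3 : p l ≤ p j := hmono.monotone (by omega)
      calc (m l / H) * (p l - p i) ≤ (m l / H) * H := Nat.mul_le_mul_left _ (by omega)
        _ = m l := h1
  set M := ∑ l ∈ Ico i j, m l with hM
  obtain ⟨qi, hqi⟩ := hQi
  obtain ⟨qj, hqj⟩ := hQj
  -- α, β
  have hα : k * Q i = H * (k * qi) := by rw [hqi]; ring
  have hβ : k' * Q j = H * (k' * qj) := by rw [hqj]; ring
  have hαw : k * qi ≤ w := by
    calc k * qi ≤ H * (k * qi) := Nat.le_mul_of_pos_left _ hHpos
      _ ≤ w := hα ▸ hk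
  have hβw : k' * qj ≤ w := by
    calc k' * qj ≤ H * (k' * qj) := Nat.le_mul_of_pos_left _ hHpos
      _ ≤ w := hβ ▸ hk'
  obtain ⟨y, hy⟩ := Nat.exists_eq_add_of_le hαw
  -- X
  set X := Z + y + k' * qj + V with hX
  have e1 : U * p i = p i * (M + V) + H * X := by
    rw [hZ, hα, hβ, hpj] at heq
    have hw : w * H = H * (k * qi) + H * y := by rw [hy]; ring
    rw [hw] at heq
    have : U * p i = p i * M + H * Z + H * y + H * (k' * qj) + V * (p i + H) := by omega
    rw [this, hX]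
    ring
  have hdvd : p i ∣ H * X := by
    have h1 : p i ∣ U * p i := Dvd.intro_left U rfl
    rw [e1] at h1
    exact (Nat.dvd_add_right (Dvd.intro _ rfl)).mp h1
  have hndvd : ¬ p i ∣ H := by
    intro h
    have h2 : p i ∣ p j := by rw [hpj]; exact (Nat.dvd_add_right (dvd_refl _)).mpr h
    have := (Nat.prime_dvd_prime_iff_eq (hp i) (hp j)).mp h2
    omega
  have hdX : p i ∣ X := ((hp i).dvd_mul.mp hdvd).resolve_left hndvd
  have hXpos : 0 < X := by omega
  have hXge : p i ≤ X := Nat.le_of_dvd hXpos hdX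
  -- lower bound for V
  have hVge : p i + m i ≤ V + M + 2 * w := by
    have hyw : y ≤ w := by omega
    omega
  have h2 : p i * (p i + m i) ≤ p i * (V + M + 2 * w) := Nat.mul_le_mul_left _ hVge
  have h3 : p i * (V + M + 2 * w) = p i * (M + V) + 2 * w * p i := by ring
  have h4 : p i * (M + V) ≤ U * p i := by rw [e1]; exact Nat.le_add_right _ _
  omega

lemma no_collision_far (hmono : StrictMono p) (hp : ∀ i, (p i).Prime) {i j : ℕ}
    (hai : a ≤ i) (hij : i ≤ j)
    (hfar : n + w ≤ ∑ l ∈ Ico i j, m l * p l)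
    {k k' U V : ℕ} (hk : k * Q i ≤ w) (hU : U * p i ≤ n) (hV : 1 ≤ V) :
    zs p m w a i + k * Q i + U * p i ≠ zs p m w a j + k' * Q j + V * p j := by
  rw [zs_diff hmono hai hij]
  have h1 : 0 < V * p j := Nat.mul_pos hV (hp j).pos
  omega

lemma no_collision_same (hp : ∀ i, (p i).Prime) {i : ℕ} (hwp : w < p i) (hQ : 0 < Q i)
    {k k' U V : ℕ} (hk' : k' * Q i ≤ w) (hkk : k < k') :
    zs p m w a i + k * Q i + U * p i ≠ zs p m w a i + k' * Q i + V * p i := by
  intro heq
  obtain ⟨c, rfl⟩ := Nat.exists_eq_add_of_lt hkk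
  have h1 : U * p i = (c + 1) * Q i + V * p i := by
    have : (k + c + 1) * Q i = k * Q i + (c + 1) * Q i := by ring
    omega
  have h2 : p i ∣ (c + 1) * Q i := by
    have h3 : p i ∣ (c + 1) * Q i + V * p i := h1 ▸ Dvd.intro_left U rfl
    exact (Nat.dvd_add_left (Dvd.intro_left V rfl)).mp h3
  have h4 : 0 < (c + 1) * Q i := Nat.mul_pos (by omega) hQ
  have h5 := Nat.le_of_dvd h4 h2
  have h6 : (c + 1) * Q i ≤ (k + c + 1) * Q i := Nat.mul_le_mul_right _ (by omega)
  omega

/-- Packing of one block of consecutive primes with all their multiples up to `D0`. -/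
lemma packD_chain (hp : ∀ i, (p i).Prime) (hmono : StrictMono p) {D0 K : ℕ}
    (idx : ℕ → ℕ) (hidx : ∀ i, idx (p i) = i)
    (hab : a < b)
    (hm : ∀ i l j, a ≤ i → i < l → l < j → j < b → j ≤ i + J → (p j - p i) ∣ m l)
    (hQ1 : ∀ i j, a ≤ i → i < j → j < b → j ≤ i + J → (p j - p i) ∣ Q i)
    (hQ2 : ∀ i j, a ≤ i → i < j → j < b → j ≤ i + J → (p j - p i) ∣ Q j)
    (hQpos : ∀ i, a ≤ i → i < b → 0 < Q i)
    (hQw : ∀ i, a ≤ i → i < b → K * Q i ≤ w)
    (hwp : w < p a)
    (hbig : ∀ i, a ≤ i → i < b → n + 2 * w * p i < p i * (p i + m i))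
    (hfar : ∀ i j, a ≤ i → j < b → i + J < j → n + w ≤ ∑ l ∈ Ico i j, m l * p l)
    (hK : D0 < (K + 1) * p a) (D : Finset ℕ)
    (hD : ∀ d ∈ D, 0 < d ∧ d ≤ D0 ∧ ∃ i, a ≤ i ∧ i < b ∧ gpf d = p i) :
    PackD n D (zs p m w a (b - 1) + w + n) := by
  have hkey : ∀ d ∈ D, ∃ i, a ≤ i ∧ i < b ∧ gpf d = p i ∧ ∃ k, 1 ≤ k ∧ k ≤ K ∧ d = k * p i ∧
      d / gpf d = k ∧ idx (gpf d) = i := by
    intro d hd
    obtain ⟨hd0, hdD, i, hai, hib, hg⟩ := hD d hd
    have h2 : 2 ≤ d := by
      by_contra hcon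
      have : d = 1 := by omega
      rw [this, gpf_one] at hg
      exact (hp i).ne_zero hg.symm
    obtain ⟨k, hk⟩ := gpf_dvd h2
    rw [hg] at hk
    have hpos := (hp i).pos
    refine ⟨i, hai, hib, hg, k, ?_, ?_, by rw [hk, mul_comm], ?_, by rw [hg, hidx]⟩
    · rcases Nat.eq_zero_or_pos k with rfl | h
      · simp at hk; omega
      · exact h
    · by_contra hcon
      have h3 : (K + 1) * p a ≤ k * p i := Nat.mul_le_mul (by omega) (hmono.monotone hai)
      rw [mul_comm k] at h3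
      omega
    · rw [hg, hk]; exact Nat.mul_div_cancel_left k hpos
  refine ⟨fun d => zs p m w a (idx (gpf d)) + (d / gpf d) * Q (idx (gpf d)), ?_, ?_⟩
  · intro d hd
    obtain ⟨i, hai, hib, hg, k, hk1, hkK, hdk, hdiv, hi⟩ := hkey d hd
    simp only [hi, hdiv]
    have h1 : k * Q i ≤ w := (Nat.mul_le_mul_right _ hkK).trans (hQw i hai hib)
    have h2 := zs_diff (m := m) (w := w) hmono hai (show i ≤ b - 1 by omega)
    omega
  · intro d hd e he hne u v hu hv hu' hv'
    obtain ⟨i, hai, hib, hg, k, hk1, hkK, hdk, hdiv, hi⟩ := hkey d hd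
    obtain ⟨j, haj, hjb, hg', k', hk1', hkK', hek, hdiv', hj⟩ := hkey e he
    simp only [hi, hdiv, hj, hdiv']
    have hkQ : k * Q i ≤ w := (Nat.mul_le_mul_right _ hkK).trans (hQw i hai hib)
    have hkQ' : k' * Q j ≤ w := (Nat.mul_le_mul_right _ hkK').trans (hQw j haj hjb)
    have hud : u * d = (u * k) * p i := by rw [hdk]; ring
    have hve : v * e = (v * k') * p j := by rw [hek]; ring
    rw [hud] at hu' ⊢
    rw [hve] at hv' ⊢
    have hU1 : 1 ≤ u * k := Nat.mul_pos hu hk1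
    have hV1 : 1 ≤ v * k' := Nat.mul_pos hv hk1'
    rcases lt_trichotomy i j with hlt | heq | hgt
    · rcases le_or_gt j (i + J) with hJ | hJ
      · exact no_collision_near hp hmono hai hlt (fun l h1 h2 => hm i l j hai h1 h2 hjb hJ)
          (hQ1 i j hai hlt hjb hJ) (hQ2 i j hai hlt hjb hJ) (hbig i hai hib) hkQ hkQ' hu' hV1
      · exact no_collision_far hmono hp hai hlt.le (hfar i j hai hjb hJ) hkQ hu' hV1
    · subst heq
      have hwi : w < p i := lt_of_lt_of_le hwp (hmono.monotone hai)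
      have hkk : k ≠ k' := fun h => hne (by rw [hdk, hek, h])
      rcases lt_or_gt_of_ne hkk with h | h
      · exact no_collision_same hp hwi (hQpos i hai hib) hkQ' h
      · exact (no_collision_same hp hwi (hQpos i hai hib) hkQ h).symm
    · rcases le_or_gt i (j + J) with hJ | hJ
      · exact (no_collision_near hp hmono haj hgt (fun l h1 h2 => hm j l i haj h1 h2 hib hJ)
          (hQ1 j i haj hgt hib hJ) (hQ2 j i haj hgt hib hJ) (hbig j haj hjb) hkQ' hkQ hv' hU1).symm
      · exact (no_collision_far hmono hp haj hgt.le (hfar j i haj hib hJ) hkQ' hv' hU1).symm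

end

end H70Pack
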