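import Mathlib
import Pool.Agent.Lib_helper70.Pack.Chain

/-!
# One block of primes
-/

open Finset

namespace H70Pack

/-- the `i`-th prime -/
noncomputable def pr (i : ℕ) : ℕ := Nat.nth Nat.Prime i

lemma pr_prime (i : ℕ) : (pr i).Prime := Nat.prime_nth_prime i

lemma pr_mono : StrictMono pr := Nat.nth_strictMono Nat.infinite_setOfPred_prime

/-- index of a prime -/
def ix (q : ℕ) : ℕ := Nat.count Nat.Prime q

lemma ix_pr (i : ℕ) : ix (pr i) = i := Nat.count_nth_of_infinite Nat.infinite_setOfPred_prime i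

lemma pr_ix {q : ℕ} (hq : q.Prime) : pr (ix q) = q := Nat.nth_count hq

lemma lt_of_pr_lt {i x : ℕ} (h : pr i < x) : i < ix x := by
  have h1 := Nat.count_strict_mono (pr_prime i) h
  have h2 := ix_pr i
  unfold ix at h2 ⊢
  omega

lemma pr_lt_of_lt {i x : ℕ} (h : i < ix x) : pr i < x := Nat.nth_lt_of_lt_count h

lemma le_pr_of_le {i x : ℕ} (h : ix x ≤ i) : x ≤ pr i := by
  by_contra hcon
  have := lt_of_pr_lt (not_le.mp hcon)
  omega

lemma le_of_le_pr {i x : ℕ} (h : x ≤ pr i) : ix x ≤ i := by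
  by_contra hcon
  have := pr_lt_of_lt (not_le.mp hcon)
  omega

/-- Index window. -/
def Wn (a b J l : ℕ) : Finset ℕ := Ico (max a (l - J)) (min b (l + J + 1))

/-- Product of all local differences. -/
noncomputable def Rn (a b J l : ℕ) : ℕ :=
  ∏ z ∈ (Wn a b J l ×ˢ Wn a b J l).filter (fun z => z.1 < z.2), (pr z.2 - pr z.1)

lemma Rn_pos (a b J l : ℕ) : 0 < Rn a b J l := by
  refine Finset.prod_pos fun z hz => ?_
  have := pr_mono (mem_filter.mp hz).2
  omega

lemma dvd_Rn {a b J l x y : ℕ} (hx : x ∈ Wn a b J l) (hy : y ∈ Wn a b J l) (h : x < y) :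
    (pr y - pr x) ∣ Rn a b J l := by
  unfold Rn
  exact Finset.dvd_prod_of_mem (fun z : ℕ × ℕ => pr z.2 - pr z.1) (a := (x, y))
    (mem_filter.mpr ⟨mem_product.mpr ⟨hx, hy⟩, h⟩)

lemma card_Wn_le (a b J l : ℕ) : (Wn a b J l).card ≤ 2 * J + 1 := by
  unfold Wn
  rw [Nat.card_Ico]
  omega

lemma Rn_le {a b J l B : ℕ} (hB : 0 < B) (hdiff : ∀ x y, a ≤ x → x < y → y < b → pr y - pr x ≤ B) :
    Rn a b J l ≤ B ^ ((2 * J + 1) ^ 2) := by
  unfold Rn
  refine (Finset.prod_le_pow_card _ _ B fun z hz => ?_).trans ?_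
  · obtain ⟨h1, h2⟩ := mem_filter.mp hz
    obtain ⟨h3, h4⟩ := mem_product.mp h1
    unfold Wn at h3 h4
    rw [mem_Ico] at h3 h4
    exact hdiff _ _ (by omega) h2 (by omega)
  · refine Nat.pow_le_pow_right hB ?_
    refine (card_filter_le _ _).trans ?_
    rw [card_product, sq]
    exact Nat.mul_le_mul (card_Wn_le _ _ _ _) (card_Wn_le _ _ _ _)

/-- step counts -/
noncomputable def mn (n w a b J l : ℕ) : ℕ :=
  Rn a b J l * ((n / pr l + 1 + 2 * w - pr l) / Rn a b J l + 1)

lemma mn_ge (n w a b J l : ℕ) : n / pr l + 1 + 2 * w - pr l ≤ mn n w a b J l :=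
  (Nat.lt_mul_div_succ _ (Rn_pos a b J l)).le

lemma mn_le (n w a b J l : ℕ) :
    mn n w a b J l ≤ n / pr l + 1 + 2 * w - pr l + Rn a b J l := by
  unfold mn
  rw [mul_add, mul_one]
  exact Nat.add_le_add_right (Nat.mul_div_le _ _) _

lemma mn_big (n w a b J l : ℕ) : n + 2 * w * pr l < pr l * (pr l + mn n w a b J l) := by
  have h1 := mn_ge n w a b J l
  have h2 : n / pr l + 1 + 2 * w ≤ pr l + mn n w a b J l := by omega
  have h3 : pr l * (n / pr l + 1 + 2 * w) ≤ pr l * (pr l + mn n w a b J l) :=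
    Nat.mul_le_mul_left _ h2
  have h4 : n < pr l * (n / pr l + 1) := Nat.lt_mul_div_succ _ (pr_prime l).pos
  have h5 : pr l * (n / pr l + 1 + 2 * w) = pr l * (n / pr l + 1) + 2 * w * pr l := by ring
  omega

lemma mn_upper {n w a b J l Rb : ℕ} (hl : pr l * pr l ≤ n) (hR : Rn a b J l ≤ Rb) :
    mn n w a b J l * pr l ≤ (n - pr l ^ 2) + (1 + 2 * w + Rb) * pr l := by
  have h1 := mn_le n w a b J l
  have h2 : pr l ≤ n / pr l := (Nat.le_div_iff_mul_le (pr_prime l).pos).mpr hl
  have h3 : mn n w a b J l + pr l ≤ n / pr l + (1 + 2 * w + Rb) := by omega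
  have h4 := Nat.mul_le_mul_right (pr l) h3
  rw [add_mul, add_mul] at h4
  have h5 : n / pr l * pr l ≤ n := Nat.div_mul_le_self n (pr l)
  rw [sq]
  omega

lemma mn_lower {n w a b J l : ℕ} :
    n - pr l * pr l ≤ mn n w a b J l * pr l := by
  have h1 := mn_big n w a b J l
  rw [mul_add] at h1
  rw [mul_comm (mn n w a b J l)]
  omega

/-- Packing of one block of primes. -/
lemma packD_block {n D0 K w B J c Y1 : ℕ} (hB : 0 < B) (hc : 0 < c) (hcY : (c + 1) * B ≤ Y1)
    (hY1 : Y1 * Y1 ≤ n)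
    (hKw : K * B ^ ((2 * J + 1) ^ 2) ≤ w) (hw : w < c * B) (hK : D0 < (K + 1) * (c * B))
    (hfar : n + w ≤ (J + 1) * (n - Y1 * Y1)) :
    PackD n ((Icc 1 D0).filter (fun d => c * B ≤ gpf d ∧ gpf d < (c + 1) * B))
      ((∑ p ∈ (Ico (c * B) ((c + 1) * B)).filter Nat.Prime,
        ((n - p ^ 2) + (1 + 2 * w + B ^ ((2 * J + 1) ^ 2)) * p)) + w * B + w + n) := by
  set a := ix (c * B) with ha
  set b := ix ((c + 1) * B) with hb
  have hcB : 0 < c * B := Nat.mul_pos hc hB
  have hsub : (c + 1) * B = c * B + B := by ring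
  have hrange : ∀ i, a ≤ i → i < b → c * B ≤ pr i ∧ pr i < (c + 1) * B := fun i h1 h2 =>
    ⟨le_pr_of_le h1, pr_lt_of_lt h2⟩
  have hmem : ∀ d ∈ (Icc 1 D0).filter (fun d => c * B ≤ gpf d ∧ gpf d < (c + 1) * B),
      0 < d ∧ d ≤ D0 ∧ ∃ i, a ≤ i ∧ i < b ∧ gpf d = pr i := by
    intro d hd
    obtain ⟨h1, h2, h3⟩ := mem_filter.mp hd
    obtain ⟨h4, h5⟩ := mem_Icc.mp h1
    have h6 : 2 ≤ d := by
      by_contra hcon
      have : d = 1 := by omega
      rw [this, gpf_one] at h2
      omega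
    have hpg := gpf_prime h6
    refine ⟨h4, h5, ix (gpf d), ?_, ?_, (pr_ix hpg).symm⟩
    · apply le_of_le_pr; rw [pr_ix hpg]; exact h2
    · apply lt_of_pr_lt; rw [pr_ix hpg]; exact h3
  rcases Nat.lt_or_ge a b with hab | hab
  · -- nonempty block
    have hdiff : ∀ x y, a ≤ x → x < y → y < b → pr y - pr x ≤ B := by
      intro x y h1 h2 h3
      have h4 := (hrange x h1 (by omega)).1
      have h5 := (hrange y (by omega) h3).2
      omega
    have hR : ∀ l, Rn a b J l ≤ B ^ ((2 * J + 1) ^ 2) := fun l => Rn_le hB hdiff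
    have hpn : ∀ i, i < b → pr i * pr i ≤ n := by
      intro i hi
      have h1 : pr i < Y1 := lt_of_lt_of_le (pr_lt_of_lt hi) hcY
      exact (Nat.mul_le_mul h1.le h1.le).trans hY1
    have hmain := packD_chain (n := n) (J := J) (a := a) (b := b) (w := w)
      (m := mn n w a b J) (Q := Rn a b J) (D0 := D0) (K := K)
      pr_prime pr_mono ix ix_pr hab
      (fun i l j hai hil hlj hjb hJ => by
        refine Dvd.dvd.mul_right (dvd_Rn ?_ ?_ (by omega)) _
        · unfold Wn; rw [mem_Ico]; omega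
        · unfold Wn; rw [mem_Ico]; omega)
      (fun i j hai hij hjb hJ => by
        refine dvd_Rn ?_ ?_ hij
        · unfold Wn; rw [mem_Ico]; omega
        · unfold Wn; rw [mem_Ico]; omega)
      (fun i j hai hij hjb hJ => by
        refine dvd_Rn ?_ ?_ hij
        · unfold Wn; rw [mem_Ico]; omega
        · unfold Wn; rw [mem_Ico]; omega)
      (fun i _ _ => Rn_pos _ _ _ _)
      (fun i _ _ => (Nat.mul_le_mul_left _ (hR i)).trans hKw)
      (lt_of_lt_of_le hw (hrange a le_rfl hab).1)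
      (fun i _ _ => mn_big n w a b J i)
      (fun i j hai hjb hJ => by
        have h1 : (j - i) * (n - Y1 * Y1) ≤ ∑ l ∈ Ico i j, mn n w a b J l * pr l := by
          rw [← smul_eq_mul, ← Nat.card_Ico, ← sum_const]
          refine sum_le_sum fun l hl => ?_
          obtain ⟨hl1, hl2⟩ := mem_Ico.mp hl
          refine le_trans ?_ mn_lower
          have h1 : pr l < Y1 := lt_of_lt_of_le (pr_lt_of_lt (by omega)) hcY
          have h2 : pr l * pr l ≤ Y1 * Y1 := Nat.mul_le_mul h1.le h1.le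
          omega
        have h2 : (J + 1) * (n - Y1 * Y1) ≤ (j - i) * (n - Y1 * Y1) :=
          Nat.mul_le_mul_right _ (by omega)
        omega)
      (lt_of_lt_of_le hK (Nat.mul_le_mul_left _ (hrange a le_rfl hab).1))
      _ hmem
    refine hmain.mono subset_rfl ?_
    -- bound the length
    have hz : zs pr (mn n w a b J) w a (b - 1)
        ≤ (∑ p ∈ (Ico (c * B) ((c + 1) * B)).filter Nat.Prime,
        ((n - p ^ 2) + (1 + 2 * w + B ^ ((2 * J + 1) ^ 2)) * p)) + w * B := by
      unfold zs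
      refine Nat.add_le_add ?_ ?_
      · have himg : (Ico (c * B) ((c + 1) * B)).filter Nat.Prime = (Ico a b).image pr := by
          ext q
          simp only [mem_filter, mem_Ico, mem_image]
          constructor
          · rintro ⟨⟨h1, h2⟩, h3⟩
            refine ⟨ix q, ⟨?_, ?_⟩, pr_ix h3⟩
            · apply le_of_le_pr; rw [pr_ix h3]; exact h1
            · apply lt_of_pr_lt; rw [pr_ix h3]; exact h2
          · rintro ⟨i, ⟨h1, h2⟩, rfl⟩
            exact ⟨hrange i h1 h2, pr_prime i⟩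
        rw [himg, sum_image (fun x _ y _ h => pr_mono.injective h)]
        calc ∑ l ∈ Ico a (b - 1), mn n w a b J l * pr l
            ≤ ∑ l ∈ Ico a b, mn n w a b J l * pr l :=
              sum_le_sum_of_subset (Ico_subset_Ico_right (by omega))
          _ ≤ _ := sum_le_sum fun l hl => mn_upper (hpn l (mem_Ico.mp hl).2) (hR l)
      · refine Nat.mul_le_mul_left _ ?_
        rcases Nat.lt_or_ge a (b - 1) with h | h
        · exact hdiff a (b - 1) le_rfl h (by omega)
        · have : b - 1 = a := by omega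
          rw [this]; simp
    omega
  · -- empty block
    refine (PackD.empty n).mono ?_ (Nat.zero_le _)
    intro d hd
    obtain ⟨_, _, i, h1, h2, _⟩ := hmem d hd
    omega

end H70Pack
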