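import Mathlib

/-!
# Definitions for MP_f78dbe_co
-/

namespace H70Pack

/-- Finite sets of integers `A i` *pack into* `[m] = {1, …, m}`: there are integers `s i` such that
all translates `s i + A i` are contained in `[m]` and are pairwise disjoint. -/
def Packs {ι : Type} (A : ι → Finset ℤ) (m : ℕ) : Prop :=
  ∃ s : ι → ℤ,
    (∀ i, (A i).image (fun a => s i + a) ⊆ Finset.Icc 1 (m : ℤ)) ∧
    Pairwise fun i j => Disjoint ((A i).image fun a => s i + a) ((A j).image fun a => s j + a)

/-- `A n d = {d, 2d, …, ⌊n/d⌋ d}`: the positive multiples of `d` that are at most `n`. -/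
noncomputable def A (n d : ℕ) : Finset ℤ := (Finset.Icc (1 : ℤ) n).filter fun x => (d : ℤ) ∣ x

/-- `m_k(n)`: the least `m` such that `A_1, …, A_k` pack into `[m]`. -/
noncomputable def mk (n k : ℕ) : ℕ := sInf {m : ℕ | Packs (fun d : Finset.Icc 1 k => A n d) m}

/-- `m(n) = m_n(n)`. -/
noncomputable def m (n : ℕ) : ℕ := mk n n

end H70Pack
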