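import Mathlib
import Pool.Agent.Lib_helper70.Pack.Block

/-!
# The explicit upper bound
-/

open Finset

namespace H70Pack

lemma sum_blocks (g : ℕ → ℕ) (B c0 c1 : ℕ) (h : c0 ≤ c1) :
    ∑ c ∈ Ico c0 c1, ∑ x ∈ Ico (c * B) ((c + 1) * B), g x = ∑ x ∈ Ico (c0 * B) (c1 * B), g x := by
  induction c1, h using Nat.le_induction with
  | base => simp
  | succ c1 hc ih =>
    rw [sum_Ico_succ_top hc, ih, sum_Ico_consecutive]
    · exact Nat.mul_le_mul_right _ hc
    · exact Nat.mul_le_mul_right _ (by omega)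

/-- cost of one prime in the chain -/
def cost (n w B J p : ℕ) : ℕ := (n - p ^ 2) + (1 + 2 * w + B ^ ((2 * J + 1) ^ 2)) * p

/-- total length used for all differences `≤ D0` -/
def tot (n D0 w B J c0 c1 r : ℕ) : ℕ :=
  (((c0 * B) * (D0 + n) + ((Icc (c1 * B) r).filter Nat.Prime).card * (D0 + n))
    + (D0 / (r + 1)) * n)
    + ((∑ p ∈ (Ico (c0 * B) (c1 * B)).filter Nat.Prime, cost n w B J p)
      + (c1 - c0) * (w * B + w + n))

theorem packD_total {n D0 K w B J c0 c1 r : ℕ} (hr : r * r ≤ n) (hr' : n < (r + 1) * (r + 1))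
    (hB : 0 < B) (hc0 : 0 < c0) (hc01 : c0 ≤ c1) (hc1 : c1 * B ≤ r)
    (hKw : K * B ^ ((2 * J + 1) ^ 2) ≤ w) (hw : w < c0 * B) (hK : D0 < (K + 1) * (c0 * B))
    (hfar : n + w ≤ (J + 1) * (n - (c1 * B) * (c1 * B))) :
    PackD n (Icc 1 D0) (tot n D0 w B J c0 c1 r) := by
  classical
  -- the families
  set F1 : ℕ → Finset ℕ := fun p => (Icc 1 D0).filter (fun d => gpf d = p) with hF1
  set F3 : ℕ → Finset ℕ := fun k => (Icc 1 D0).filter (fun d => ∃ p, p.Prime ∧ r < p ∧ d = k * p)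
    with hF3
  set F4 : ℕ → Finset ℕ := fun c => (Icc 1 D0).filter (fun d => c * B ≤ gpf d ∧ gpf d < (c + 1) * B)
    with hF4
  have hY1 : (c1 * B) * (c1 * B) ≤ n := (Nat.mul_le_mul hc1 hc1).trans hr
  have pos1 : ∀ (P : ℕ → Prop) [DecidablePred P], ∀ d ∈ (Icc 1 D0).filter P, 0 < d := by
    intro P _ d hd
    exact (mem_Icc.mp (mem_filter.mp hd).1).1
  have h1 : PackD n ((range (c0 * B)).biUnion F1) ((c0 * B) * (D0 + n)) := by
    have := PackD.biUnion (n := n) (range (c0 * B)) F1 (fun _ => D0 + n) (fun i _ => pos1 _)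
      (fun i _ => packD_gpf)
    simpa using this
  have h2 : PackD n (((Icc (c1 * B) r).filter Nat.Prime).biUnion F1)
      (((Icc (c1 * B) r).filter Nat.Prime).card * (D0 + n)) := by
    have := PackD.biUnion (n := n) ((Icc (c1 * B) r).filter Nat.Prime) F1 (fun _ => D0 + n)
      (fun i _ => pos1 _) (fun i _ => packD_gpf)
    simpa using this
  have h3 : PackD n ((Icc 1 (D0 / (r + 1))).biUnion F3) ((D0 / (r + 1)) * n) := by
    have := PackD.biUnion (n := n) (Icc 1 (D0 / (r + 1))) F3 (fun _ => n)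
      (fun i _ => pos1 _) (fun i _ => packD_large hr' i _ (fun d hd => (mem_filter.mp hd).2))
    simpa using this
  have h4 : PackD n ((Ico c0 c1).biUnion F4)
      ((∑ p ∈ (Ico (c0 * B) (c1 * B)).filter Nat.Prime, cost n w B J p)
      + (c1 - c0) * (w * B + w + n)) := by
    have := PackD.biUnion (n := n) (Ico c0 c1) F4
      (fun c => (∑ p ∈ (Ico (c * B) ((c + 1) * B)).filter Nat.Prime, cost n w B J p)
        + (w * B + w + n)) (fun i _ => pos1 _) (fun c hc => by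
          obtain ⟨hc2, hc3⟩ := mem_Ico.mp hc
          have hcc : c0 * B ≤ c * B := Nat.mul_le_mul_right _ hc2
          have := packD_block (n := n) (D0 := D0) (K := K) (w := w) (B := B) (J := J) (c := c)
            (Y1 := c1 * B) hB (by omega) (Nat.mul_le_mul_right _ (by omega)) hY1 hKw (by omega)
            (lt_of_lt_of_le hK (Nat.mul_le_mul_left _ hcc)) hfar
          refine this.mono subset_rfl (le_of_eq ?_)
          simp only [cost]
          ring)
    rw [sum_add_distrib, sum_const, Nat.card_Ico, smul_eq_mul] at this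
    simp only [sum_filter] at this ⊢
    rw [sum_blocks _ B c0 c1 hc01] at this
    exact this
  have h12 := PackD.union (E := ((Icc (c1 * B) r).filter Nat.Prime).biUnion F1) (fun e he => by
    obtain ⟨i, _, hi⟩ := mem_biUnion.mp he
    exact pos1 _ e hi) h1 h2
  have h123 := PackD.union (E := (Icc 1 (D0 / (r + 1))).biUnion F3) (fun e he => by
    obtain ⟨i, _, hi⟩ := mem_biUnion.mp he
    exact pos1 _ e hi) h12 h3
  have h1234 := PackD.union (E := (Ico c0 c1).biUnion F4) (fun e he => by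
    obtain ⟨i, _, hi⟩ := mem_biUnion.mp he
    exact pos1 _ e hi) h123 h4
  refine h1234.mono ?_ le_rfl
  intro d hd
  obtain ⟨hd1, hd2⟩ := mem_Icc.mp hd
  simp only [mem_union, mem_biUnion]
  rcases Nat.lt_or_ge (gpf d) (c0 * B) with hg | hg
  · exact Or.inl (Or.inl (Or.inl ⟨gpf d, mem_range.mpr hg, mem_filter.mpr ⟨hd, rfl⟩⟩))
  have hd3 : 2 ≤ d := by
    by_contra hcon
    have : d = 1 := by omega
    rw [this, gpf_one] at hg
    have : 0 < c0 * B := Nat.mul_pos hc0 hB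
    omega
  have hpg := gpf_prime hd3
  rcases Nat.lt_or_ge (gpf d) (c1 * B) with hg1 | hg1
  · -- chain
    refine Or.inr ⟨gpf d / B, ?_, mem_filter.mpr ⟨hd, ?_, ?_⟩⟩
    · rw [mem_Ico]
      exact ⟨(Nat.le_div_iff_mul_le hB).mpr hg, Nat.div_lt_of_lt_mul (by rw [mul_comm]; exact hg1)⟩
    · exact Nat.div_mul_le_self _ _
    · rw [mul_comm]; exact Nat.lt_mul_div_succ _ hB
  rcases Nat.lt_or_ge r (gpf d) with hg2 | hg2
  · -- large prime
    refine Or.inl (Or.inr ⟨d / gpf d, ?_, mem_filter.mpr ⟨hd, gpf d, hpg, hg2, ?_⟩⟩)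
    · rw [mem_Icc]
      refine ⟨Nat.div_pos (Nat.le_of_dvd (by omega) (gpf_dvd hd3)) hpg.pos, ?_⟩
      exact (Nat.div_le_div_right hd2).trans (Nat.div_le_div_left hg2 (by omega))
    · exact (Nat.div_mul_cancel (gpf_dvd hd3)).symm
  · exact Or.inl (Or.inl (Or.inr ⟨gpf d, mem_filter.mpr ⟨mem_Icc.mpr ⟨hg1, hg2⟩, hpg⟩,
      mem_filter.mpr ⟨hd, rfl⟩⟩))

/-- Explicit upper bound for the full problem. -/
theorem packD_all {n D0 K w B J c0 c1 r : ℕ} (hr : r * r ≤ n) (hr' : n < (r + 1) * (r + 1))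
    (hB : 0 < B) (hc0 : 0 < c0) (hc01 : c0 ≤ c1) (hc1 : c1 * B ≤ r)
    (hKw : K * B ^ ((2 * J + 1) ^ 2) ≤ w) (hw : w < c0 * B) (hK : D0 < (K + 1) * (c0 * B))
    (hfar : n + w ≤ (J + 1) * (n - (c1 * B) * (c1 * B)))
    (hD0 : 0 < D0) (hD0n : D0 ≤ n) :
    PackD n (Icc 1 n)
      (tot n D0 w B J c0 c1 r + (n + (∑ e ∈ Icc 1 n, n / e) * (n / D0) + 1)) := by
  refine PackD.greedy hD0 hD0n ((packD_total hr hr' hB hc0 hc01 hc1 hKw hw hK hfar).mono
    subset_rfl (Nat.le_add_right _ _)) ?_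
  omega

end H70Pack
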