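import Mathlib
import Pool.Agent.Lib_helper70.Pack.Defs
import Pool.Agent.Lib_helper70.Pack.Total

/-!
# From `PackD` to the definitions of the problem
-/

open Finset

namespace H70Pack

lemma mem_A {n d : ℕ} {x : ℤ} : x ∈ A n d ↔ (1 ≤ x ∧ x ≤ n) ∧ (d : ℤ) ∣ x := by
  unfold A
  rw [mem_filter, mem_Icc]

lemma mem_A_iff {n d : ℕ} (hd : 0 < d) {x : ℤ} :
    x ∈ A n d ↔ ∃ u : ℕ, 1 ≤ u ∧ u * d ≤ n ∧ x = (u * d : ℕ) := by
  rw [mem_A]
  constructor
  · rintro ⟨⟨h1, h2⟩, c, hc⟩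
    have hd' : (0 : ℤ) < d := by exact_mod_cast hd
    have hcpos : 0 < c := by
      by_contra hcon
      have : (d : ℤ) * c ≤ 0 := mul_nonpos_of_nonneg_of_nonpos hd'.le (not_lt.mp hcon)
      omega
    obtain ⟨u, rfl⟩ := Int.eq_ofNat_of_zero_le hcpos.le
    refine ⟨u, by omega, ?_, ?_⟩
    · have : ((u * d : ℕ) : ℤ) ≤ n := by push_cast; rw [mul_comm]; rw [← hc]; exact h2
      exact_mod_cast this
    · rw [hc]; push_cast; ring
  · rintro ⟨u, h1, h2, rfl⟩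
    refine ⟨⟨?_, by exact_mod_cast h2⟩, ⟨u, by push_cast; ring⟩⟩
    have : 0 < u * d := Nat.mul_pos h1 hd
    exact_mod_cast this

lemma packs_of_packD {n k M : ℕ} (h : PackD n (Icc 1 k) M) :
    Packs (fun d : Icc 1 k => A n d) M := by
  obtain ⟨s, h1, h2⟩ := h
  refine ⟨fun d => (s d : ℤ), ?_, ?_⟩
  · intro d
    intro x hx
    obtain ⟨a, ha, rfl⟩ := mem_image.mp hx
    obtain ⟨⟨ha1, ha2⟩, _⟩ := mem_A.mp ha
    have := h1 d d.2
    rw [mem_Icc]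
    have h0 : (0:ℤ) ≤ (s d : ℤ) := Int.natCast_nonneg _
    have h3 : ((s d : ℕ) : ℤ) + n ≤ M := by exact_mod_cast this
    constructor
    · linarith
    · linarith
  · intro d e hde
    rw [disjoint_left]
    intro x hx hy
    obtain ⟨a, ha, rfl⟩ := mem_image.mp hx
    obtain ⟨b, hb, hab⟩ := mem_image.mp hy
    have hd0 : 0 < (d : ℕ) := (mem_Icc.mp d.2).1
    have he0 : 0 < (e : ℕ) := (mem_Icc.mp e.2).1
    obtain ⟨u, hu1, hu2, rfl⟩ := (mem_A_iff hd0).mp ha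
    obtain ⟨v, hv1, hv2, rfl⟩ := (mem_A_iff he0).mp hb
    have hne : (d : ℕ) ≠ e := fun h => hde (Subtype.ext h)
    refine h2 d d.2 e e.2 hne u v hu1 hv1 hu2 hv2 ?_
    have : ((s d + u * d : ℕ) : ℤ) = ((s e + v * e : ℕ) : ℤ) := by
      push_cast at hab ⊢
      linarith
    exact_mod_cast this

lemma m_le_of_packD {n M : ℕ} (h : PackD n (Icc 1 n) M) : m n ≤ M :=
  Nat.sInf_le (packs_of_packD h)

end H70Pack
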